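import Mathlib

open Finset

namespace Pool.Agent.H.MP_5b3c88_nt

variable {A : Type*} [CommRing A]

def gb (t : A) : ℕ → ℕ → A
  | _, 0 => 1
  | 0, _ + 1 => 0
  | n + 1, k + 1 => gb t n k + t ^ (k + 1) * gb t n (k + 1)

@[simp] theorem gb_zero (t : A) (n : ℕ) : gb t n 0 = 1 := by cases n <;> rfl

theorem gb_succ (t : A) (n k : ℕ) :
    gb t (n + 1) (k + 1) = gb t n k + t ^ (k + 1) * gb t n (k + 1) := rfl

theorem gb_gt (t : A) (n k : ℕ) (h : n < k) : gb t n k = 0 := by
  induction n generalizing k with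
  | zero => obtain ⟨k, rfl⟩ : ∃ j, k = j + 1 := ⟨k - 1, by omega⟩; rfl
  | succ n ih =>
    obtain ⟨k, rfl⟩ : ∃ j, k = j + 1 := ⟨k - 1, by omega⟩
    rw [gb_succ, ih k (by omega), ih (k + 1) (by omega)]; simp

theorem gb_R (t : A) (n k : ℕ) :
    t ^ k * (1 - t ^ (k + 1)) * gb t n (k + 1) = (t ^ k - t ^ n) * gb t n k := by
  induction n generalizing k with
  | zero =>
    cases k with
    | zero => simp [gb]
    | succ k => simp [gb]
  | succ n ih =>
    have h1 := ih k
    cases k with
    | zero => rw [gb_succ]; simp only [gb_zero] at h1 ⊢; linear_combination t * h1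
    | succ k =>
      have h2 := ih k
      rw [gb_succ, gb_succ]
      linear_combination t ^ (k + 2) * h1 + t * h2

theorem gb_L (t : A) (n k : ℕ) :
    (1 - t ^ (k + 1)) * gb t (n + 1) (k + 1) = (1 - t ^ (n + 1)) * gb t n k := by
  rw [gb_succ]; linear_combination t * gb_R t n k

theorem gb_B (t : A) (n k : ℕ) :
    t ^ k * gb t (n + 1) (k + 1) = t ^ n * gb t n k + t ^ k * gb t n (k + 1) := by
  rw [gb_succ]; linear_combination -gb_R t n k

theorem gb_map {B : Type*} [CommRing B] (f : A →+* B) (t : A) (n k : ℕ) :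
    f (gb t n k) = gb (f t) n k := by
  induction n generalizing k with
  | zero => cases k <;> simp [gb]
  | succ n ih =>
    cases k with
    | zero => simp
    | succ k => simp [gb_succ, ih]

theorem gb_inv {x t : A} (h : x * t = 1) (n k : ℕ) :
    t ^ (k * n) * gb x n k = t ^ (k * k) * gb t n k := by
  induction n generalizing k with
  | zero => cases k <;> simp [gb]
  | succ n ih =>
    cases k with
    | zero => simp
    | succ k =>
      have h1 := ih k
      have h2 := ih (k + 1)
      have h3 := gb_B t n k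
      have h4 : x ^ (k + 1) * t ^ (k + 1) = 1 := by rw [← mul_pow, h, one_pow]
      rw [gb_succ x]
      linear_combination t ^ (n + k + 1) * h1 + h2 - t ^ (k * k + k + 1) * h3
        + t ^ ((k + 1) * n) * gb x n (k + 1) * h4

theorem gb_self (t : A) (n : ℕ) : gb t n n = 1 := by
  induction n with
  | zero => rfl
  | succ n ih => rw [gb_succ, ih, gb_gt t n (n + 1) (by omega)]; simp

theorem gb_prod (t : A) (a b : ℕ) :
    gb t (a + b) a * ((∏ j ∈ range a, (1 - t ^ (j + 1))) * ∏ j ∈ range b, (1 - t ^ (j + 1)))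
      = ∏ j ∈ range (a + b), (1 - t ^ (j + 1)) := by
  induction a with
  | zero => simp
  | succ a ih =>
    rw [show a + 1 + b = a + b + 1 by ring, prod_range_succ, prod_range_succ, ← ih]
    linear_combination ((∏ j ∈ range a, (1 - t ^ (j + 1))) * ∏ j ∈ range b, (1 - t ^ (j + 1)))
      * gb_L t (a + b) a

theorem gb_three (t : A) (n k : ℕ) :
    t ^ k * gb t (n + 2) (k + 2) = t ^ n * gb t n k + t ^ k * (1 + t ^ (n + 1)) * gb t n (k + 1)
      + t ^ (2 * k + 2) * gb t n (k + 2) := by
  rw [gb_succ]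
  linear_combination gb_B t n k + t ^ (k + 1) * gb_B t n (k + 1)

end Pool.Agent.H.MP_5b3c88_nt
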