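import Mathlib
import Pool.Agent.H.MP_5b3c88_nt.G

open Finset

namespace Pool.Agent.H.MP_5b3c88_nt

variable {A : Type*} [CommRing A]

def b (t : A) (n j : ℕ) : A := gb t (2 * n) (n + j)

theorem b_succ {x t : A} (h : x * t = 1) (n j : ℕ) :
    b t (n + 1) (j + 1) = t ^ n * x ^ j * b t n j + (1 + t ^ (2 * n + 1)) * b t n (j + 1)
      + t ^ (n + j + 2) * b t n (j + 2) := by
  have h1 := gb_three t (2 * n) (n + j)
  have h2 : x ^ (n + j) * t ^ (n + j) = 1 := by rw [← mul_pow, h, one_pow]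
  have h3 : x ^ n * t ^ n = 1 := by rw [← mul_pow, h, one_pow]
  simp only [b]
  rw [show 2 * (n + 1) = 2 * n + 2 by ring, show n + 1 + (j + 1) = n + j + 2 by ring,
    show n + (j + 1) = n + j + 1 by ring, show n + (j + 2) = n + j + 2 by ring]
  linear_combination x ^ (n + j) * h1 - (gb t (2 * n + 2) (n + j + 2)
    - (1 + t ^ (2 * n + 1)) * gb t (2 * n) (n + j + 1)
    - t ^ (n + j + 2) * gb t (2 * n) (n + j + 2)) * h2 + t ^ n * x ^ j * gb t (2 * n) (n + j) * h3

theorem b_R {x t : A} (h : x * t = 1) (n j : ℕ) :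
    (1 - t ^ (n + j + 1)) * b t n (j + 1) = (1 - t ^ n * x ^ j) * b t n j := by
  have h1 := gb_R t (2 * n) (n + j)
  have h2 : x ^ (n + j) * t ^ (n + j) = 1 := by rw [← mul_pow, h, one_pow]
  have h3 : x ^ n * t ^ n = 1 := by rw [← mul_pow, h, one_pow]
  simp only [b]
  rw [show n + (j + 1) = n + j + 1 by ring]
  linear_combination x ^ (n + j) * h1 - ((1 - t ^ (n + j + 1)) * gb t (2 * n) (n + j + 1)
    - gb t (2 * n) (n + j)) * h2 - t ^ n * x ^ j * gb t (2 * n) (n + j) * h3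

def AA (t : A) (M n : ℕ) : A := ∑ i ∈ range M,
  (t ^ (15 * i ^ 2 + 5 * i) * b t n (5 * i + 1) - t ^ (15 * i ^ 2 + 25 * i + 10) * b t n (5 * i + 4))

def BB (t : A) (M n : ℕ) : A := ∑ i ∈ range M,
  (t ^ (15 * i ^ 2 + 10 * i + 2) * b t n (5 * i + 2)
    - t ^ (15 * i ^ 2 + 20 * i + 7) * b t n (5 * i + 3))

theorem BB_succ {x t : A} (h : x * t = 1) (M n : ℕ) :
    BB t M (n + 1) = BB t M n + t ^ (n + 1) * AA t M n := by
  rw [BB, BB, AA, mul_sum, ← sum_add_distrib]
  refine sum_congr rfl fun i _ => ?_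
  have h1 := b_succ h n (5 * i + 1)
  have h2 := b_succ h n (5 * i + 2)
  have h3 := b_R h n (5 * i + 2)
  have h4 : x ^ (5 * i + 1) * t ^ (5 * i + 1) = 1 := by rw [← mul_pow, h, one_pow]
  have h5 : x ^ (5 * i + 2) * t ^ (5 * i + 2) = 1 := by rw [← mul_pow, h, one_pow]
  simp only [add_assoc, Nat.reduceAdd] at h1 h2 h3 ⊢
  rw [h1, h2]
  linear_combination t ^ (15 * i ^ 2 + 15 * i + 5 + n) * h3
    + t ^ (15 * i ^ 2 + 5 * i + n + 1) * b t n (5 * i + 1) * h4
    - (t ^ (15 * i ^ 2 + 15 * i + 5 + n) * b t n (5 * i + 2)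
      + t ^ (15 * i ^ 2 + 10 * i + 3 + 2 * n) * b t n (5 * i + 2)) * h5

theorem AA_succ {x t : A} (h : x * t = 1) (M n : ℕ) (hn : n < 5 * M) :
    AA t M (n + 1) = AA t M n + t ^ n * BB t M (n + 1) + t ^ n * b t n 0 := by
  have key : AA t M (n + 1) = (1 + t ^ (2 * n + 1)) * AA t M n + t ^ n * BB t M n
      + t ^ n * ∑ i ∈ range M, (t ^ (15 * i ^ 2) * b t n (5 * i)
        - t ^ (15 * (i + 1) ^ 2) * b t n (5 * (i + 1))) := by
    rw [BB, AA, AA, mul_sum, mul_sum, mul_sum, ← sum_add_distrib, ← sum_add_distrib]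
    refine sum_congr rfl fun i _ => ?_
    have h1 := b_succ h n (5 * i)
    have h2 := b_succ h n (5 * i + 3)
    have h4 : x ^ (5 * i) * t ^ (5 * i) = 1 := by rw [← mul_pow, h, one_pow]
    have h5 : x ^ (5 * i + 3) * t ^ (5 * i + 3) = 1 := by rw [← mul_pow, h, one_pow]
    rw [show 5 * (i + 1) = 5 * i + 5 by ring]
    simp only [add_assoc, Nat.reduceAdd] at h1 h2 ⊢
    rw [h1, h2]
    linear_combination t ^ (15 * i ^ 2 + n) * b t n (5 * i) * h4
      - t ^ (15 * i ^ 2 + 20 * i + 7 + n) * b t n (5 * i + 3) * h5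
  rw [key, sum_range_sub' (fun i => t ^ (15 * i ^ 2) * b t n (5 * i)), BB_succ h,
    show b t n (5 * M) = 0 from gb_gt _ _ _ (by omega)]
  simp only [mul_zero, ne_eq, OfNat.ofNat_ne_zero, not_false_eq_true, zero_pow, pow_zero, one_mul,
    sub_zero]
  ring

def Fg (x : A) : ℕ → A
  | 0 => 0
  | 1 => 1
  | n + 2 => Fg x (n + 1) + x ^ (n + 1) * Fg x n

theorem ident {x t : A} (h : x * t = 1) (M n : ℕ) (hn : n ≤ 5 * M) :
    ∑ k ∈ range n, t ^ (2 * k * (k + 1)) * gb x (2 * k) k * Fg x (2 * k + 1)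
      = (t ^ (n ^ 2 + n) * Fg x (2 * n + 1) - t ^ (n + 1) * (x * t ^ (n ^ 2) * Fg x (2 * n)))
        * AA t M n - x * t ^ (n ^ 2) * Fg x (2 * n) * BB t M n := by
  induction n with
  | zero =>
    have : AA t M 0 = 0 := sum_eq_zero fun i _ => by
      rw [show b t 0 (5 * i + 1) = 0 from gb_gt _ _ _ (by omega),
        show b t 0 (5 * i + 4) = 0 from gb_gt _ _ _ (by omega)]; simp
    simp [this, Fg]
  | succ n ih =>
    rw [sum_range_succ, ih (by omega), AA_succ h M n (by omega), BB_succ h]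
    have e1 : Fg x (2 * (n + 1)) = Fg x (2 * n + 1) + x ^ (2 * n + 1) * Fg x (2 * n) := rfl
    have e2 : Fg x (2 * (n + 1) + 1) = Fg x (2 * (n + 1)) + x ^ (2 * n + 2) * Fg x (2 * n + 1) := rfl
    have h1 := gb_inv h (2 * n) n
    have h2 : x ^ (n * n) * t ^ (n * n) = 1 := by rw [← mul_pow, h, one_pow]
    have h3 : t ^ (n * n) * gb x (2 * n) n = b t n 0 := by
      rw [b, add_zero]
      linear_combination x ^ (n * n) * h1 - (t ^ (n * n) * gb x (2 * n) n - gb t (2 * n) n) * h2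
    have h4 : x ^ (2 * n + 1) * t ^ (2 * n + 1) = 1 := by rw [← mul_pow, h, one_pow]
    have h5 : x ^ (2 * n + 2) * t ^ (2 * n + 2) = 1 := by rw [← mul_pow, h, one_pow]
    have hO : t ^ ((n + 1) ^ 2 + (n + 1)) * Fg x (2 * (n + 1) + 1)
        - t ^ (n + 1 + 1) * (x * t ^ ((n + 1) ^ 2) * Fg x (2 * (n + 1)))
        = t ^ (n ^ 2 + n) * Fg x (2 * n + 1) := by
      rw [e2]
      linear_combination t ^ (n ^ 2 + n) * Fg x (2 * n + 1) * h5
        - t ^ ((n + 1) ^ 2 + (n + 1)) * Fg x (2 * (n + 1)) * h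
    have hE : x * t ^ ((n + 1) ^ 2) * Fg x (2 * (n + 1))
        = t ^ n * (t ^ (n ^ 2 + n) * Fg x (2 * n + 1)) + x * t ^ (n ^ 2) * Fg x (2 * n) := by
      rw [e1]
      linear_combination t ^ (n ^ 2 + 2 * n) * Fg x (2 * n + 1) * h
        + x * t ^ (n ^ 2) * Fg x (2 * n) * h4
    rw [hO, hE, ← h3]
    ring

theorem fix_pow {t y : A} {N : ℕ} (hy : (t ^ N - 1) * y = 0) (c : ℕ) : t ^ (N * c) * y = y := by
  induction c with
  | zero => simp
  | succ c ih => rw [mul_add, mul_one, pow_add]; linear_combination ih + t ^ (N * c) * hy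

theorem fix_mod {t y : A} {N a c : ℕ} (hy : (t ^ N - 1) * y = 0) (h : a ≡ c [MOD N]) :
    t ^ a * y = t ^ c * y := by
  have k : ∀ a, t ^ a * y = t ^ (a % N) * y := fun a => by
    conv_lhs => rw [← Nat.mod_add_div a N, pow_add, mul_assoc, fix_pow hy]
  rw [k a, k c, h]

section refl
variable {x t : A} (h : x * t = 1) (N m : ℕ) (he : (t ^ N - 1) ^ 2 = 0)
  (hu : ∀ j, ¬ N ∣ j → IsUnit (1 - t ^ j))
include he hu

theorem b_eps (j : ℕ) (hj : ¬ N ∣ j) (hm : 0 < N * m) : (t ^ N - 1) * b t (N * m) j = 0 := by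
  have h1 := gb_L t (2 * (N * m) - 1) (N * m + j - 1)
  rw [show 2 * (N * m) - 1 + 1 = 2 * (N * m) by omega,
    show N * m + j - 1 + 1 = N * m + j by omega] at h1
  have h2 : ¬ N ∣ N * m + j := fun hh => hj ((Nat.dvd_add_right (Dvd.intro _ rfl)).1 hh)
  have h3 : t ^ (N * (2 * m)) * (t ^ N - 1) = t ^ N - 1 := fix_pow (by rw [← sq, he]) _
  rw [← (hu _ h2).mul_right_eq_zero, b]
  rw [show 2 * (N * m) = N * (2 * m) by ring] at h1 ⊢
  linear_combination (t ^ N - 1) * h1 - gb t (N * (2 * m) - 1) (N * m + j - 1) * h3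

include h in
theorem b_step (r c d : ℕ) (hcd : c + d = N) (hc : 0 < c) (hd : 0 < d) (hm : 0 < N * m) :
    (1 - t ^ (c + 1)) * b t (N * m) (N * r + c + 1) = (1 - t ^ d) * b t (N * m) (N * r + c)
      ∨ d = 1 := by
  by_cases hd1 : d = 1
  · exact Or.inr hd1
  left
  have n1 : ¬ N ∣ N * r + c := fun hh =>
    absurd (Nat.le_of_dvd hc ((Nat.dvd_add_right (Dvd.intro _ rfl)).1 hh)) (by omega)
  have n2 : ¬ N ∣ N * r + c + 1 := fun hh =>
    absurd (Nat.le_of_dvd (by omega) ((Nat.dvd_add_right (Dvd.intro r rfl)).1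
      (show N ∣ N * r + (c + 1) from hh))) (by omega)
  have e1 := b_eps N m he hu _ n1 hm
  have e2 := b_eps N m he hu _ n2 hm
  have h1 := b_R h (N * m) (N * r + c)
  have f1 := fix_pow e2 (m + r)
  have f2 := fix_pow e1 m
  have f3 := fix_pow e1 (r + 1)
  have h2 : x ^ (N * r + c) * t ^ (N * r + c) = 1 := by rw [← mul_pow, h, one_pow]
  have h3 : t ^ (N * (r + 1)) = t ^ (N * r + c) * t ^ d := by
    rw [← pow_add]; congr 1; rw [mul_add]; omega
  rw [h3] at f3
  linear_combination h1 + t ^ (c + 1) * f1 - x ^ (N * r + c) * f2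
    + x ^ (N * r + c) * f3 - t ^ d * b t (N * m) (N * r + c) * h2

include h in
theorem b_refl (hN : N % 2 = 1) (r c d : ℕ) (hcd : c + d = N) (hc : 0 < c) (hd : 0 < d)
    (hm : 0 < N * m) : b t (N * m) (N * r + c) = b t (N * m) (N * r + d) := by
  have key : ∀ s c d, c + d = N → d = c + 2 * s + 1 → 0 < c →
      b t (N * m) (N * r + c) = b t (N * m) (N * r + d) := by
    intro s
    induction s with
    | zero =>
      intro c d h1 h2 h3
      have := (b_step h N m he hu r c d h1 h3 (by omega) hm).resolve_right (by omega)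
      have hun := hu d fun hh => absurd (Nat.le_of_dvd (by omega) hh) (by omega)
      rw [show c + 1 = d by omega, show N * r + c + 1 = N * r + d by omega] at this
      exact (hun.mul_right_inj).1 this.symm
    | succ s ih =>
      intro c d h1 h2 h3
      obtain ⟨d, rfl⟩ : ∃ e, d = e + 1 := ⟨d - 1, by omega⟩
      have i1 := ih (c + 1) d (by omega) (by omega) (by omega)
      have s1 := (b_step h N m he hu r c (d + 1) h1 h3 (by omega) hm).resolve_right (by omega)
      have s2 := (b_step h N m he hu r d (c + 1) (by omega) (by omega) (by omega) hm).resolve_right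
        (by omega)
      have hun := hu (d + 1) fun hh => absurd (Nat.le_of_dvd (by omega) hh) (by omega)
      rw [← add_assoc] at i1 ⊢
      rw [i1, ← s2] at s1
      exact (hun.mul_right_inj).1 s1.symm
  rcases Nat.lt_or_ge c d with hlt | hge
  · exact key ((d - c) / 2) c d hcd (by omega) hc
  · exact (key ((c - d) / 2) d c (by omega) (by omega) hd).symm

end refl

theorem blocks (f g : ℕ → A) (L m : ℕ)
    (hfg : ∀ r c d, c + d + 1 = L → f (L * r + c) = g (L * r + d)) :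
    ∑ i ∈ range (L * m), (f i - g i) = 0 := by
  induction m with
  | zero => simp
  | succ m ih =>
    rw [mul_add, mul_one, sum_range_add, ih, zero_add, sum_sub_distrib,
      ← sum_range_reflect (fun i => g (L * m + i)), sub_eq_zero]
    exact sum_congr rfl fun c hc => hfg m c _ (by have := mem_range.1 hc; omega)

theorem main {x t : A} (h : x * t = 1) (L m : ℕ) (hL : L % 2 = 1) (hm : 0 < m)
    (he : (t ^ (5 * L) - 1) ^ 2 = 0) (hu : ∀ j, ¬ 5 * L ∣ j → IsUnit (1 - t ^ j)) :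
    ∑ k ∈ range (5 * L * m), t ^ (2 * k * (k + 1)) * gb x (2 * k) k * Fg x (2 * k + 1) = 0 := by
  have hm' : 0 < 5 * L * m := Nat.mul_pos (by omega) hm
  have nd : ∀ r c, 0 < c → c < 5 * L → ¬ 5 * L ∣ 5 * L * r + c := fun r c h1 h2 hh =>
    absurd (Nat.le_of_dvd h1 ((Nat.dvd_add_right (Dvd.intro _ rfl)).1 hh)) (by omega)
  have hA : AA t (L * m) (5 * L * m) = 0 := by
    refine blocks _ _ L m fun r c d hcd => ?_
    have e1 : 5 * (L * r + c) + 1 = 5 * L * r + (5 * c + 1) := by ring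
    have e2 : 5 * (L * r + d) + 4 = 5 * L * r + (5 * d + 4) := by ring
    rw [e1, e2, ← b_refl h (5 * L) m he hu (by omega) r (5 * c + 1) (5 * d + 4) (by omega) (by omega)
      (by omega) hm']
    have ee := b_eps (5 * L) m he hu _ (nd r (5 * c + 1) (by omega) (by omega)) hm'
    refine fix_mod ee ((Nat.modEq_iff_dvd).2 ⟨(2 * r + 1) * (3 * (d + 1 - c) - 1), ?_⟩)
    subst hcd; push_cast; ring
  have hB : BB t (L * m) (5 * L * m) = 0 := by
    refine blocks _ _ L m fun r c d hcd => ?_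
    have e1 : 5 * (L * r + c) + 2 = 5 * L * r + (5 * c + 2) := by ring
    have e2 : 5 * (L * r + d) + 3 = 5 * L * r + (5 * d + 3) := by ring
    rw [e1, e2, ← b_refl h (5 * L) m he hu (by omega) r (5 * c + 2) (5 * d + 3) (by omega) (by omega)
      (by omega) hm']
    have ee := b_eps (5 * L) m he hu _ (nd r (5 * c + 2) (by omega) (by omega)) hm'
    refine fix_mod ee ((Nat.modEq_iff_dvd).2 ⟨(2 * r + 1) * (3 * (d + 1 - c) - 2), ?_⟩)
    subst hcd; push_cast; ring
  rw [ident h (L * m) _ (by rw [mul_assoc]), hA, hB]; ring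

end Pool.Agent.H.MP_5b3c88_nt
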